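import Mathlib

namespace Pool.Agent.Results.MP_d086ed_co.Hull

open Set RealInnerProductSpace

/-- the points `x` such that every hyperplane through `x` meets `S` -/
def hull {n : ℕ} (S : Set (EuclideanSpace ℝ (Fin n))) : Set (EuclideanSpace ℝ (Fin n)) :=
  {x | ∀ v, v ≠ 0 → ∃ s ∈ S, ⟪v, s⟫ = ⟪v, x⟫}

variable {m : ℕ}

noncomputable def pt (a b : ℝ) : EuclideanSpace ℝ (Fin (m + 3)) :=
  EuclideanSpace.single 0 a + EuclideanSpace.single 1 b

theorem ip (v : EuclideanSpace ℝ (Fin (m + 3))) (a b : ℝ) : ⟪v, pt a b⟫ = v 0 * a + v 1 * b := by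
  simp [pt, inner_add_right, EuclideanSpace.inner_single_right, mul_comm]

theorem p0 (a b : ℝ) : (pt a b : EuclideanSpace ℝ (Fin (m + 3))) 0 = a := by simp [pt]
theorem p1 (a b : ℝ) : (pt a b : EuclideanSpace ℝ (Fin (m + 3))) 1 = b := by simp [pt]

/-- planar shadows of the sets -/
def R (k : ℕ) (a b : ℝ) : Prop :=
  if k = 0 then 1 ≤ a ∧ a ≤ 5 ∧ b = 0 else if k = 1 then 1 ≤ b ∧ b ≤ 5 ∧ a = 0 else
    if k = 2 then 1 ≤ a ∧ a ≤ 5 ∧ a + b = 6 else a = -k ∧ b = -k

def q (k : ℕ) : ℝ × ℝ :=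
  if k = 0 then (3, 0) else if k = 1 then (0, 3) else if k = 2 then (3, 3) else (-k, -k)

theorem qR (k : ℕ) : R k (q k).1 (q k).2 := by
  unfold R q
  split_ifs <;> norm_num

theorem sep (k : ℕ) : ∃ a b c : ℝ, (a ≠ 0 ∨ b ≠ 0) ∧ c < a * 2 + b * 2 ∧
    (∀ x y, R k x y → a * x + b * y < c) ∧ ∀ j x y, R j x y →
      (j < k → c < a * x + b * y) ∧ a * x + b * y ≠ c := by
  have t : ∀ j : ℕ, j ≠ 0 → j ≠ 1 → j ≠ 2 → (3 : ℝ) ≤ j := fun j _ _ _ => by
    exact_mod_cast (by omega : 3 ≤ j)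
  by_cases h0 : k = 0
  · refine ⟨0, 2, 1, by norm_num, by norm_num, fun x y h => ?_, fun j x y h => ⟨by omega, ?_⟩⟩
    · simp [R, h0] at h; linarith
    · have := t j
      unfold R at h
      split_ifs at h <;> grind
  by_cases h1 : k = 1
  · refine ⟨2, 0, 1, by norm_num, by norm_num, fun x y h => ?_, fun j x y h => ?_⟩
    · simp [R, h1] at h; linarith
    · have := t j
      unfold R at h
      split_ifs at h <;> grind
  by_cases h2 : k = 2
  · refine ⟨-2, -2, -11, by norm_num, by norm_num, fun x y h => ?_, fun j x y h => ?_⟩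
    · simp [R, h2] at h; linarith
    · have := t j
      unfold R at h
      split_ifs at h <;> grind
  have := t k h0 h1 h2
  refine ⟨1, 1, -2 * k + 1, by norm_num, by linarith, fun x y h => ?_, fun j x y h => ?_⟩
  · simp [R, h0, h1, h2] at h; linarith
  · have a : j < k → (j : ℝ) + 1 ≤ k := fun h => by exact_mod_cast h
    have b : ¬j < k → (k : ℝ) ≤ j := fun h => by exact_mod_cast not_lt.1 h
    unfold R at h
    split_ifs at h <;> grind

theorem result (n : ℕ) (hn : 3 ≤ n) : ∃ A : Fin n → Set (EuclideanSpace ℝ (Fin n)),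
    (∀ i, (A i).Nonempty ∧ Convex ℝ (A i)) ∧ Pairwise (Function.onFun Disjoint A) ∧
      ¬∃ C : Fin n → Set (EuclideanSpace ℝ (Fin n)),
        (∀ i, Convex ℝ (C i)) ∧ hull (⋃ i, A i) = ⋃ i, C i := by
  obtain ⟨m, rfl⟩ : ∃ m, n = m + 3 := ⟨n - 3, by omega⟩
  refine ⟨fun i => {x | R i (x 0) (x 1)}, fun i => ⟨⟨pt (q i).1 (q i).2, by
    simpa [p0, p1] using qR i⟩, fun x hx y hy s t hs ht h => ?_⟩, fun i j h => ?_, ?_⟩
  · simp only [mem_ofPred_eq, R, PiLp.add_apply, PiLp.smul_apply, smul_eq_mul] at *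
    obtain rfl : t = 1 - s := by linarith
    split_ifs at * <;> (repeat' apply And.intro) <;> nlinarith
  · wlog l : i < j generalizing i j
    · exact (this _ _ h.symm (lt_of_le_of_ne (not_lt.1 l) h.symm)).symm
    obtain ⟨a, b, c, -, -, h1, h2⟩ := sep j
    exact disjoint_left.2 fun x hx hx' => lt_asymm (h1 _ _ hx') ((h2 _ _ _ hx).1 l)
  rintro ⟨C, hC, e⟩
  let P : Option (Fin (m + 3)) → EuclideanSpace ℝ (Fin (m + 3)) :=
    fun o => o.elim (pt 2 2) fun i => pt (q i).1 (q i).2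
  have hP : ∀ o, ∃ i, P o ∈ C i := fun o => mem_iUnion.1 (e.le (by
    intro v _
    rcases o with _ | i
    · by_contra k
      push Not at k
      have z : ∀ (i : Fin (m + 3)) (a b a' b' : ℝ), (∀ s, 0 ≤ s → s ≤ 1 →
          R i (a + s * (a' - a)) (b + s * (b' - b))) →
          0 < (v 0 * (a - 2) + v 1 * (b - 2)) * (v 0 * (a' - 2) + v 1 * (b' - 2)) := by
        intro i a b a' b' h
        by_contra w
        have : (0 : ℝ) ∈ uIcc _ _ := mem_uIcc.2 ((mul_nonpos_iff.1 (not_lt.1 w)).symm.imp id .symm)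
        rw [← segment_eq_uIcc, segment_eq_image'] at this
        obtain ⟨s, ⟨s0, s1⟩, hs⟩ := this
        refine k (pt _ _) (mem_iUnion.2 ⟨i, by simpa [p0, p1] using h s s0 s1⟩) ?_
        simp only [P, Option.elim, ip, smul_eq_mul] at hs ⊢
        linarith
      have z0 := z 0 1 0 5 0 fun s _ _ => by simp [R]; constructor <;> linarith
      have z1 := z 1 0 1 0 5 fun s _ _ => by simp [R]; constructor <;> linarith
      have z2 := z 2 1 5 5 1 fun s _ _ => by simp [R]; refine ⟨?_, ?_, ?_⟩ <;> linarith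
      rcases mul_pos_iff.1 z0 with ⟨_, _⟩ | ⟨_, _⟩ <;> rcases mul_pos_iff.1 z1 with ⟨_, _⟩ | ⟨_, _⟩ <;>
        rcases mul_pos_iff.1 z2 with ⟨_, _⟩ | ⟨_, _⟩ <;> linarith
    · exact ⟨_, mem_iUnion.2 ⟨i, by simpa [P, p0, p1] using qR i⟩, rfl⟩))
  choose g hg using hP
  have key : ∀ (j : Fin (m + 3)) (o), (∀ i, o = some i → i < j) → g o ≠ g (some j) := fun j o h w => by
    obtain ⟨a, b, c, h0, h1, h2, h3⟩ := sep j
    have u1 : a * P (some j) 0 + b * P (some j) 1 < c := by simpa [P, p0, p1] using h2 _ _ (qR j)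
    have u2 : c < a * P o 0 + b * P o 1 := by
      rcases o with _ | i
      · simpa [P, p0, p1] using h1
      · simpa [P, p0, p1] using (h3 _ _ _ (qR i)).1 (h i rfl)
    obtain ⟨x, hx, hc⟩ := (hC _).isPreconnected.intermediate_value (hg (some j)) (w ▸ hg o)
      (f := fun x => a * x 0 + b * x 1) (by fun_prop) ⟨u1.le, u2.le⟩
    obtain ⟨s, hs, k⟩ := e.ge (mem_iUnion.2 ⟨_, hx⟩) (pt a b) fun z => by
      have z0 := p0 (m := m) a b
      have z1 := p1 (m := m) a b
      rw [z] at z0 z1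
      simp_all
    obtain ⟨i, hi⟩ := mem_iUnion.1 hs
    rw [real_inner_comm, ip, real_inner_comm, ip] at k
    exact (h3 _ _ _ hi).2 (by simp only at hc; linarith)
  obtain ⟨o, o', h, w⟩ := Fintype.exists_ne_map_eq_of_card_lt g (by simp)
  rcases o with _ | i <;> rcases o' with _ | j
  · exact h rfl
  · exact key j _ (by simp) w
  · exact key i _ (by simp) w.symm
  · rcases lt_trichotomy i j with l | l | l
    · exact key j _ (by simpa) w
    · exact h (l ▸ rfl)
    · exact key i _ (by simpa) w.symm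

end Pool.Agent.Results.MP_d086ed_co.Hull
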